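import Mathlib
import Pool.Agent.TH750.Scott

set_option autoImplicit false

/-!
# Finitely generated integral domains have d-Sigma_2 Scott sentences

The formulas of `L_{ω₁ω}`, the classes `Σ_m` and `Π_m` and d-`Σ_2` Scott sentences
(`HasDSigma2Scott`) are defined in `Pool/Agent/TH750/Scott.lean`, where the following criterion is
proved: a structure generated by a tuple `a` has a d-`Σ_2` Scott sentence if every tuple `x`
satisfying all universal formulas true of `a` generates it.

Let `A` be a finitely generated integral domain and let `x` be such a tuple.  There is an injective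
endomorphism `f` of `A` with `f a = x`.  Comparing transcendence degrees over the prime ring, `A` is
algebraic over the range of `f`.  Let `y` be an element of `A`, a root of `f(q)` for a nonzero
polynomial `q` over `A`.  If `r₁, …, r_k` are the roots of `q` then the statement that
`q(z) = 0` implies `(z - r₁) ⋯ (z - r_k) = 0` is universal, so it is true with `f(q)` and `f(r_i)`
in place of `q` and `r_i`, and therefore `y` is one of the elements `f(r_i)`.
-/

namespace Pool.Agent.Results.MP_93e0ce_lc.IntegralDomains

open FirstOrder FirstOrder.Language FirstOrder.Ring Pool.Agent.TH750.SC Polynomial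

/-- `A` is algebraic over the range of an injective endomorphism. -/
theorem algebraic_over_range {A : Type} [CommRing A] [IsDomain A] [hfg : Algebra.FiniteType ℤ A]
    (f : A →+* A) (hf : Function.Injective f) (a : A) :
    ∃ q : A[X], q ≠ 0 ∧ q.eval₂ f a = 0 := by
  -- the prime ring
  let R : Subring A := (Int.castRingHom A).range
  have : Algebra.FiniteType R A := Algebra.FiniteType.of_restrictScalars_finiteType ℤ R A
  have hfin : Algebra.trdeg R A < Cardinal.aleph0 := trdeg_lt_aleph0_of_finiteType
  let f' : A →ₐ[R] A := { f with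
    commutes' := by
      rintro ⟨_, ⟨n, rfl⟩⟩
      change f ((Int.castRingHom A) n) = (Int.castRingHom A) n
      simp }
  have hf' : Function.Injective f' := hf
  obtain ⟨s, hs⟩ := exists_isTranscendenceBasis R A
  have h1 : AlgebraicIndependent R (f' ∘ ((↑) : s → A)) := hs.1.map' hf'
  have h2 : IsTranscendenceBasis R (f' ∘ ((↑) : s → A)) :=
    h1.isTranscendenceBasis_of_trdeg_le hfin (by rw [hs.cardinalMk_eq_trdeg])
  have h3 := h2.isAlgebraic
  obtain ⟨p, hp0, hp⟩ := h3.isAlgebraic a
  -- lift the coefficients
  have hle : ∀ z ∈ Algebra.adjoin R (Set.range (f' ∘ ((↑) : s → A))), ∃ w, f w = z := by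
    intro z hz
    have h4 : Algebra.adjoin R (Set.range (f' ∘ ((↑) : s → A))) ≤ f'.range := by
      rw [Algebra.adjoin_le_iff]
      rintro _ ⟨i, rfl⟩
      exact ⟨_, rfl⟩
    obtain ⟨w, hw⟩ := h4 hz
    exact ⟨w, hw⟩
  let p' : A[X] := p.map (algebraMap _ A)
  have hp' : p' ≠ 0 := by
    intro h
    apply hp0
    apply Polynomial.map_injective _ (FaithfulSMul.algebraMap_injective _ A)
    rw [Polynomial.map_zero]
    exact h
  have hcoef : ∀ n, ∃ w, f w = p'.coeff n := by
    intro n
    rw [Polynomial.coeff_map]
    exact hle _ (p.coeff n).2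
  have hlift : p' ∈ Polynomial.lifts f := by
    rw [Polynomial.lifts_iff_coeff_lifts]
    intro n
    obtain ⟨w, hw⟩ := hcoef n
    exact ⟨w, hw⟩
  obtain ⟨q, hq⟩ := hlift
  have hq' : q.map f = p' := hq
  refine ⟨q, ?_, ?_⟩
  · rintro rfl
    rw [Polynomial.map_zero] at hq'
    exact hp' hq'.symm
  · rw [← Polynomial.eval_map, hq', Polynomial.eval_map]
    exact hp

/-- Evaluation of terms attached to polynomials over the free commutative ring. -/
theorem lift_append {A : Type} [CommRing A] {n : ℕ} (v : Fin n → A) (w : Fin 1 → A)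
    (q : (FreeCommRing (Fin n))[X]) :
    FreeCommRing.lift (Fin.append v w)
      (q.eval₂ (FreeCommRing.map (Fin.castAdd 1)) (FreeCommRing.of (Fin.natAdd n 0))) =
    q.eval₂ (FreeCommRing.lift v) (w 0) := by
  rw [Polynomial.hom_eval₂]
  have h1 : (FreeCommRing.lift (Fin.append v w)).comp (FreeCommRing.map (Fin.castAdd 1)) =
      FreeCommRing.lift v := by
    apply FreeCommRing.hom_ext
    intro i
    simp [FreeCommRing.map]
  rw [h1, FreeCommRing.lift_of, Fin.append_right]

/-- Every finitely generated integral domain `A`, as a structure in the language of rings, has a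
d-`Σ_2` Scott sentence. -/
theorem result (A : Type) [CommRing A] [IsDomain A] [CompatibleRing A]
    (hfg : ∃ s : Finset A, Subring.closure (s : Set A) = ⊤) :
    HasDSigma2Scott Language.ring A := by
  classical
  obtain ⟨s, hs⟩ := hfg
  -- a generating tuple
  let n := s.card
  let a : Fin n → A := fun i => (s.equivFin.symm i : A)
  have hrange : Set.range a = (s : Set A) := by
    ext y
    constructor
    · rintro ⟨i, rfl⟩
      exact (s.equivFin.symm i).2
    · intro hy
      exact ⟨s.equivFin ⟨y, hy⟩, by simp [a]⟩
  have hft : Algebra.FiniteType ℤ A := by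
    refine ⟨⟨s, ?_⟩⟩
    rw [Algebra.adjoin_int, hs]
    rfl
  have hsurj : Function.Surjective (FreeCommRing.lift a) := by
    rw [← RingHom.range_eq_top, eq_top_iff, ← hs, Subring.closure_le, ← hrange]
    rintro _ ⟨i, rfl⟩
    exact ⟨FreeCommRing.of i, by simp⟩
  have hgen : ∀ y : A, ∃ t : Language.ring.Term (Fin n), t.realize a = y := by
    intro y
    obtain ⟨p, hp⟩ := hsurj y
    exact ⟨termOfFreeCommRing p, by rw [realize_termOfFreeCommRing, hp]⟩
  have : Countable Language.ring.Symbols := by
    unfold Language.Symbols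
    infer_instance
  refine hasDSigma2Scott_of_generates a hgen ?_
  intro x hx
  -- the endomorphism taking `a` to `x`
  have hqf : ∀ p : FreeCommRing (Fin n), FreeCommRing.lift a p = 0 ↔ FreeCommRing.lift x p = 0 := by
    intro p
    have h1 := hx.qf (Term.equal (termOfFreeCommRing p) (termOfFreeCommRing 0))
      (BoundedFormula.IsAtomic.equal _ _).isQF
    rw [Formula.realize_equal, Formula.realize_equal, realize_termOfFreeCommRing,
      realize_termOfFreeCommRing, realize_termOfFreeCommRing, realize_termOfFreeCommRing,
      map_zero, map_zero] at h1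
    exact h1
  let f : A →+* A := RingHom.liftOfSurjective (FreeCommRing.lift a) hsurj
    ⟨FreeCommRing.lift x, fun p hp => (hqf p).1 hp⟩
  have hfp : ∀ p, f (FreeCommRing.lift a p) = FreeCommRing.lift x p := by
    intro p
    exact RingHom.liftOfRightInverse_comp_apply _ _ _ _ p
  have hfi : Function.Injective f := by
    rw [injective_iff_map_eq_zero]
    intro y hy
    obtain ⟨p, rfl⟩ := hsurj y
    rw [hfp] at hy
    exact (hqf p).2 hy
  have hcomp : f.comp (FreeCommRing.lift a) = FreeCommRing.lift x :=
    RingHom.ext fun p => hfp p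
  intro y
  by_contra hcon
  have hny : ∀ z, f z ≠ y := by
    intro z hz
    obtain ⟨p, rfl⟩ := hsurj z
    rw [hfp] at hz
    exact hcon ⟨termOfFreeCommRing p, by rw [realize_termOfFreeCommRing, hz]⟩
  obtain ⟨q, hq0, hq⟩ := algebraic_over_range f hfi y
  -- the product over the roots
  let Q : A[X] := ∏ r ∈ q.roots.toFinset, (X - C r)
  -- polynomials over the free commutative ring
  obtain ⟨q', hq'⟩ := Polynomial.map_surjective _ hsurj q
  obtain ⟨Q', hQ'⟩ := Polynomial.map_surjective _ hsurj Q
  let tm : (FreeCommRing (Fin n))[X] → Language.ring.Term (Fin (n + 1)) := fun u =>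
    termOfFreeCommRing (u.eval₂ (FreeCommRing.map (Fin.castAdd 1))
      (FreeCommRing.of (Fin.natAdd n 0)))
  have htma : ∀ (u : (FreeCommRing (Fin n))[X]) (w : Fin 1 → A),
      (tm u).realize (Fin.append a w) = (u.map (FreeCommRing.lift a)).eval (w 0) := by
    intro u w
    rw [realize_termOfFreeCommRing, lift_append, Polynomial.eval_map]
  have htmx : ∀ (u : (FreeCommRing (Fin n))[X]) (w : Fin 1 → A),
      (tm u).realize (Fin.append x w) = (u.map (FreeCommRing.lift a)).eval₂ f (w 0) := by
    intro u w
    rw [realize_termOfFreeCommRing, lift_append, Polynomial.eval₂_map, hcomp]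
  let z0 : Language.ring.Term (Fin (n + 1)) := termOfFreeCommRing 0
  have hz0 : ∀ v : Fin (n + 1) → A, z0.realize v = 0 := by
    intro v
    rw [realize_termOfFreeCommRing, map_zero]
  let ψ : Language.ring.Formula (Fin (n + 1)) :=
    (Term.equal (tm q') z0).imp (Term.equal (tm Q') z0)
  have hψ : BoundedFormula.IsQF ψ :=
    (BoundedFormula.IsAtomic.equal _ _).isQF.imp (BoundedFormula.IsAtomic.equal _ _).isQF
  have h1 := hx 1 ψ hψ (by
    intro w
    simp only [ψ, Formula.realize_imp, Formula.realize_equal]
    rw [htma, htma, hz0, hq', hQ']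
    intro h2
    rw [Polynomial.eval_prod]
    apply Finset.prod_eq_zero (i := w 0)
    · rw [Multiset.mem_toFinset, Polynomial.mem_roots hq0]
      exact h2
    · simp) (fun _ => y)
  simp only [ψ, Formula.realize_imp, Formula.realize_equal] at h1
  rw [htmx, htmx, hz0, hq', hQ'] at h1
  have h2 := h1 hq
  rw [Polynomial.eval₂_finsetProd, Finset.prod_eq_zero_iff] at h2
  obtain ⟨r, -, hr⟩ := h2
  rw [Polynomial.eval₂_sub, Polynomial.eval₂_X, Polynomial.eval₂_C, sub_eq_zero] at hr
  exact hny r hr.symm

end Pool.Agent.Results.MP_93e0ce_lc.IntegralDomains
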